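import Pool.Agent.Work.MP_e9e200_al.Bd.B02

/-!
# Project LC, parts 3 and 4: statements (density, assembly)

Each `def StXXX : Prop` is to be proved as `theorem I_XXX : StXXX` in `LC/P_XXX.lean`.
-/

set_option autoImplicit false

namespace Pool.Agent.Work.MP_e9e200_al.LC

/-! ### Density of discrete characters -/

/-- the additive group spanned by all `q` with `v q > 0` -/
noncomputable def posI {Q : Type} [CommGroup Q] (v : Q → ℝ) : Submodule ℤ (MonoidAlgebra ℤ Q) :=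
  Submodule.span ℤ {f | ∃ q : Q, 0 < v q ∧ f = MonoidAlgebra.of ℤ Q q}

/-- the ideal `I` does not meet `1 + posI v` -/
def Avoid {Q : Type} [CommGroup Q] (v : Q → ℝ) (I : Ideal (MonoidAlgebra ℤ Q)) : Prop :=
  ∀ f ∈ I, f - 1 ∉ posI v

/-- NB: neighbourhoods of a character -/
def StNB : Prop := ∀ (Q : Type) [CommGroup Q] [Group.FG Q] (χ : Additive Q →+ ℝ), χ ≠ 0 →
  ∀ (F : Finset Q) (ε : ℝ), 0 < ε → ∃ (q0 : Q) (X : Finset Q) (L : ℕ), 0 < L ∧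
    0 < χ (Additive.ofMul q0) ∧ q0 ∈ X ∧ (∀ x ∈ X, 0 ≤ χ (Additive.ofMul x)) ∧
    (∀ q : Q, q ^ L ∈ Subgroup.closure (X : Set Q)) ∧
    ∀ θ : Additive Q →+ ℝ, (∀ x ∈ X, 0 ≤ θ (Additive.ofMul x)) → θ ≠ 0 →
      0 < θ (Additive.ofMul q0) ∧ ∀ f ∈ F, |χ (Additive.ofMul q0) / θ (Additive.ofMul q0) *
        θ (Additive.ofMul f) - χ (Additive.ofMul f)| < ε

/-- KA: the length bound of Krull and Akizuki -/
def StKA : Prop := ∀ (K : Type) [Field K] (R : Subring K) [IsNoetherianRing R] (P : Ideal R)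
  [P.IsPrime], (∀ P' : Ideal R, P'.IsPrime → P' < P → P' = ⊥) → ∀ y ∈ P, y ≠ 0 →
  ∃ n : ℕ, ∀ O : ValuationSubring K, (∀ x ∈ R, x ∈ O) → (∀ x : R, x ∉ P → (x : K)⁻¹ ∈ O) →
    ¬ ∃ z : ℕ → K, (∀ i ≤ n, z i ≠ 0) ∧ (∀ i ≤ n, ∃ a b : R, b ≠ 0 ∧ z i = (a : K) / (b : K)) ∧
      z 0 ∈ O ∧ (∀ i < n, z (i + 1) / z i ∈ O ∧ z i / z (i + 1) ∉ O) ∧ (y : K) / z n ∈ O

/-- OZ: a discrete ordered abelian group is infinite cyclic or trivial -/
def StOZ : Prop := ∀ (H : Type) [CommGroup H] (O : Submonoid H), (∀ h, h ∈ O ∨ h⁻¹ ∈ O) →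
  (∀ h ∈ O, ∃ n : ℕ, ¬ ∃ z : ℕ → H, z 0 ∈ O ∧
    (∀ i < n, z (i + 1) * (z i)⁻¹ ∈ O ∧ z i * (z (i + 1))⁻¹ ∉ O) ∧ h * (z n)⁻¹ ∈ O) →
  ∃ ν : Chr H, ∀ h, h ∈ O ↔ 0 ≤ vl ν h

/-- VAL: discrete valuations (uses KA, OZ) -/
def StVAL : Prop := ∀ (K : Type) [Field K] (R : Subring K) [IsNoetherianRing R] (a : R),
  a ≠ 0 → ¬ IsUnit a → ∃ O : ValuationSubring K, (∀ x ∈ R, x ∈ O) ∧ (a : K)⁻¹ ∉ O ∧
    ∀ X : Finset Kˣ, (∀ x ∈ X, (x : K) ∈ R) →
      ∃ ν : Chr (Subgroup.closure (X : Set Kˣ)), ∀ y : Subgroup.closure (X : Set Kˣ),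
        ((y : Kˣ) : K) ∈ O ↔ 0 ≤ vl ν y

/-- RD: density for prime ideals (uses NB, VAL) -/
def StRD : Prop := ∀ (Q : Type) [CommGroup Q] [Group.FG Q] (χ : Additive Q →+ ℝ), χ ≠ 0 →
  ∀ (I : Ideal (MonoidAlgebra ℤ Q)) [I.IsPrime], Avoid (fun q => χ (Additive.ofMul q)) I →
  ∀ (F : Finset Q) (ε : ℝ), 0 < ε → ∃ (χ' : Chr Q) (c : ℝ), 0 < c ∧ (∃ t, vl χ' t = 1) ∧
    (∀ g ∈ F, |c * (vl χ' g : ℝ) - χ (Additive.ofMul g)| < ε) ∧
    Avoid (fun q => (vl χ' q : ℝ)) I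

/-- `y` identifies `G'` with the module `M` over the group ring of the abelianization -/
structure IsMod {G : Type} [Group G] (M : Type) [AddCommGroup M]
    [Module (MonoidAlgebra ℤ (Abelianization G)) M] (y : G → M) : Prop where
  mul : ∀ a ∈ commutator G, ∀ b ∈ commutator G, y (a * b) = y a + y b
  inj : ∀ a ∈ commutator G, y a = 0 → a = 1
  surj : ∀ x : M, ∃ a ∈ commutator G, y a = x
  conj : ∀ g, ∀ a ∈ commutator G,
    y (g * a * g⁻¹) = MonoidAlgebra.of ℤ (Abelianization G) (Abelianization.of g) • y a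

/-- MOD: the derived group as a module -/
def StMOD : Prop := ∀ (G : Type) [Group G], Metab G → ∃ (M : Type) (_ : AddCommGroup M)
  (_ : Module (MonoidAlgebra ℤ (Abelianization G)) M) (y : G → M), IsMod M y

/-- CRA: finite generation from an element of the annihilator -/
def StCRA : Prop := ∀ (G : Type) [Group G] [Group.FG G] (M : Type) [AddCommGroup M]
  [Module (MonoidAlgebra ℤ (Abelianization G)) M] (y : G → M), IsMod M y →
  ∀ (χ : Additive G →+ ℝ) (v : Abelianization G → ℝ),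
  (∀ g, v (Abelianization.of g) = χ (Additive.ofMul g)) →
  ∀ f : MonoidAlgebra ℤ (Abelianization G), (∀ x : M, f • x = 0) → f - 1 ∈ posI v →
  ∃ V : Finset G, (∀ v ∈ V, v ∈ commutator G) ∧ ∀ a ∈ commutator G, a ∈ Gen G χ V

/-- CRB: an element of the annihilator from finite generation -/
def StCRB : Prop := ∀ (G : Type) [Group G] (M : Type) [AddCommGroup M]
  [Module (MonoidAlgebra ℤ (Abelianization G)) M] (y : G → M), IsMod M y →
  ∀ (χ : Additive G →+ ℝ), χ ≠ 0 → ∀ (v : Abelianization G → ℝ),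
  (∀ g, v (Abelianization.of g) = χ (Additive.ofMul g)) →
  ∀ V : Finset G, (∀ v ∈ V, v ∈ commutator G) → (∀ a ∈ commutator G, a ∈ Gen G χ V) →
  ∃ f : MonoidAlgebra ℤ (Abelianization G), (∀ x : M, f • x = 0) ∧ f - 1 ∈ posI v

/-- DENS: density of discrete characters (uses MOD, CRA, CRB, RD) -/
def StDENS : Prop := ∀ (G : Type) [Group G] [Group.FG G], Metab G → ∀ χ : Additive G →+ ℝ,
  χ ≠ 0 → (∀ V : Finset G, (∀ v ∈ V, v ∈ commutator G) → ∃ a ∈ commutator G, a ∉ Gen G χ V) →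
  ∀ (F : Finset G) (ε : ℝ), 0 < ε → ∃ (χ' : Chr G) (c : ℝ), 0 < c ∧ (∃ t, vl χ' t = 1) ∧
    (∀ g ∈ F, |c * (vl χ' g : ℝ) - χ (Additive.ofMul g)| < ε) ∧ NFG χ'

/-! ### Assembly -/

/-- LIN: dual elements for integral characters near linearly independent characters -/
def StLIN : Prop := ∀ (G : Type) [Group G] (n : ℕ) (X : Fin n → (Additive G →+ ℝ)),
  LinearIndependent ℝ X → ∃ (F : Finset G) (ε : ℝ), 0 < ε ∧ ∀ (X' : Fin n → Chr G)
    (c : Fin n → ℝ), (∀ i, 0 < c i) →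
    (∀ i, ∀ g ∈ F, |c i * (vl (X' i) g : ℝ) - X i (Additive.ofMul g)| < ε) →
    ∃ (c' : ℤ) (h : Fin n → G), 0 < c' ∧ ∀ i j, vl (X' i) (h j) = if i = j then c' else 0

/-- LOW: the lower inclusion (uses RES, CHG, OPEN, LIN, DENS, DISC and the old items Mono, Car,
Sig1) -/
def StLOW : Prop := ∀ (m : ℕ) (G : Type) [Group G] [Group.FG G], 1 ≤ m → Metab G →
  ConvLE G m (SigC G 1) ⊆ SigC G m

end Pool.Agent.Work.MP_e9e200_al.LC
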