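import Mathlib
import Pool.Agent.Work.MP_e9e200_al.Stmts3

/-!
# The lower inclusion of Bieri's conjecture for metabelian groups: definitions

Project LC.  Chains are finitely supported functions on a set of cells.
-/

set_option autoImplicit false

namespace Pool.Agent.Work.MP_e9e200_al.LC

open Finsupp

/-! ### Based complexes with heights -/

/-- a complex of complex vector spaces with a basis `X` of cells; every cell `x` has a degree
`deg x` and heights `ht j x`; `R` is a set of cells (the region) and `D` is the boundary -/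
structure BC (ι : Type) where
  /-- the cells -/
  X : Type
  /-- the degree -/
  deg : X → ℕ
  /-- the heights -/
  ht : ι → X → ℤ
  /-- the region -/
  R : Set X
  /-- the boundary -/
  D : (X →₀ ℂ) →ₗ[ℂ] (X →₀ ℂ)

namespace BC

variable {ι : Type} (L : BC ι)

/-- the chains of degree `d` in the part `P` of the region -/
def S (d : ℕ) (P : L.X → Prop) : Submodule ℂ (L.X →₀ ℂ) :=
  Finsupp.supported ℂ ℂ {x | x ∈ L.R ∧ L.deg x = d ∧ P x}

/-- the chains (of any degree) in the part `P` of the region -/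
def T (P : L.X → Prop) : Submodule ℂ (L.X →₀ ℂ) :=
  Finsupp.supported ℂ ℂ {x | x ∈ L.R ∧ P x}

/-- all heights with index in `I` are at most `s` -/
def lo (I : Finset ι) (s : ℤ) (x : L.X) : Prop := ∀ j ∈ I, L.ht j x ≤ s

/-- all heights with index in `I` and one height with index in `J` are at most `s` -/
def lu (I J : Finset ι) (s : ℤ) (x : L.X) : Prop := L.lo I s x ∧ ∃ j ∈ J, L.ht j x ≤ s

/-- `D` is a differential which preserves the region, lowers the degree by one and changes the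
heights by at most `K` -/
def Good (K : ℤ) : Prop := 0 ≤ K ∧ (∀ x, L.D (L.D x) = 0) ∧
  ∀ x ∈ L.R, L.D (single x 1) ∈ Finsupp.supported ℂ ℂ
    {y | y ∈ L.R ∧ L.deg y + 1 = L.deg x ∧ ∀ j, |L.ht j y - L.ht j x| ≤ K}

/-- boundaries of degree `d` with heights at most `s` (for the indices in `I`) are boundaries of
chains with heights at most `s + K` -/
def Bd (I : Finset ι) (d : ℕ) : Prop := ∃ K : ℤ, 0 ≤ K ∧ ∀ s : ℤ, ∀ y ∈ L.S d (L.lo I s),
  (∃ w ∈ L.S (d + 1) (fun _ => True), L.D w = y) → ∃ w ∈ L.S (d + 1) (L.lo I (s + K)), L.D w = y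

/-- every cycle of degree `d` is homologous to a cycle with heights at most `s` (for the indices
in `I`), for all `s` -/
def Push (I : Finset ι) (d : ℕ) : Prop := ∀ s : ℤ, ∀ x ∈ L.S d (fun _ => True), L.D x = 0 →
  ∃ x' ∈ L.S d (L.lo I s), L.D x' = 0 ∧ ∃ w ∈ L.S (d + 1) (fun _ => True), L.D w = x - x'

/-- the projection to the cells with `ht j ≥ r` -/
noncomputable def tau (r : ℤ) (j : ι) : (L.X →₀ ℂ) →ₗ[ℂ] (L.X →₀ ℂ) :=
  Finsupp.linearCombination ℂ (fun x => if r ≤ L.ht j x then single x (1 : ℂ) else 0)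

/-- the functional `f τ_j D τ_j' D ...` -/
noncomputable def W (r : ℤ) (f : (L.X →₀ ℂ) →ₗ[ℂ] ℂ) : List ι → ((L.X →₀ ℂ) →ₗ[ℂ] ℂ)
  | [] => f
  | j :: T => (W r f T) ∘ₗ (L.tau r j) ∘ₗ L.D

/-- twisted differentials `D'` with arbitrarily low level `s`: `D' = D` above the level, `D'` is
exact in degree `e`, and near the level (where one height is about `s` and the others are not much
lower) there is a contracting homotopy of bounded size -/
def Twisted (J : Finset ι) (e : ℕ) : Prop := ∃ K : ℤ, 0 ≤ K ∧ ∀ K' : ℤ, 0 ≤ K' →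
  ∃ K'' : ℤ, 0 ≤ K'' ∧ ∀ s1 : ℤ, ∃ s ≤ s1, ∃ D' κ : (L.X →₀ ℂ) →ₗ[ℂ] (L.X →₀ ℂ),
    (∀ x, D' (D' x) = 0) ∧
    (∀ x ∈ L.R, D' (single x 1) ∈ Finsupp.supported ℂ ℂ
      {y | y ∈ L.R ∧ L.deg y + 1 = L.deg x ∧ ∀ j, |L.ht j y - L.ht j x| ≤ K}) ∧
    (∀ x ∈ L.R, (∀ j ∈ J, s + K ≤ L.ht j x) → D' (single x 1) = L.D (single x 1)) ∧
    (∀ z ∈ L.S e (fun _ => True), D' z = 0 → ∃ w ∈ L.S (e + 1) (fun _ => True), D' w = z) ∧
    (∀ x ∈ L.R, κ (single x 1) ∈ Finsupp.supported ℂ ℂ
      {y | y ∈ L.R ∧ L.deg y = L.deg x + 1 ∧ ∀ j, |L.ht j y - L.ht j x| ≤ K''}) ∧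
    (∀ x ∈ L.R, L.deg x + 1 ≤ e → (∀ j ∈ J, s - K' ≤ L.ht j x) →
      (∃ j ∈ J, L.ht j x ≤ s + K') → D' (κ (single x 1)) + κ (D' (single x 1)) = single x 1)

end BC

/-! ### Chains over a group -/

/-- left translation of chains -/
noncomputable def tr (k : Type) [CommRing k] {H B : Type} [Group H] (h : H) :
    (H × B →₀ k) →ₗ[k] (H × B →₀ k) :=
  Finsupp.lmapDomain k k (fun p => (h * p.1, p.2))

/-- the equivariant extension of a map on the basis -/
noncomputable def ext (k : Type) [CommRing k] {H B B' : Type} [Group H] (u : B → (H × B' →₀ k)) :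
    (H × B →₀ k) →ₗ[k] (H × B' →₀ k) :=
  Finsupp.linearCombination k (fun p : H × B => tr k p.1 (u p.2))

/-- the augmentation -/
noncomputable def aug (k : Type) [CommRing k] {H B : Type} (e : B → k) : (H × B →₀ k) →ₗ[k] k :=
  Finsupp.linearCombination k (fun p : H × B => e p.2)

/-- the image under a homomorphism -/
noncomputable def mp (k : Type) [CommRing k] {G H B : Type} [Group G] [Group H] (ρ : G →* H) :
    (G × B →₀ k) →ₗ[k] (H × B →₀ k) :=
  Finsupp.lmapDomain k k (fun p => (ρ p.1, p.2))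

/-- a partial resolution of the trivial module up to degree `m`, with the finite basis `B`, over
the monoid `S ⊆ G`: `db b` is the boundary and `eb b` the augmentation of the basis element `b`;
cycles (with augmentation zero) of degree `< m` supported in `S` are boundaries of chains
supported in `S` -/
structure PRes (k : Type) [CommRing k] {G : Type} [Group G] (S : Set G) (m : ℕ) (B : Type)
    (deg : B → ℕ) (db : B → (G × B →₀ k)) (eb : B → k) : Prop where
  le : ∀ b, deg b ≤ m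
  db_sup : ∀ b, db b ∈ Finsupp.supported k k {p : G × B | p.1 ∈ S ∧ deg p.2 + 1 = deg b}
  eb_deg : ∀ b, deg b ≠ 0 → eb b = 0
  dd : ∀ b, ext k db (db b) = 0
  ed : ∀ b, aug k eb (db b) = 0
  surj : ∃ x ∈ Finsupp.supported k k {p : G × B | p.1 ∈ S ∧ deg p.2 = 0}, aug k eb x = 1
  exact : ∀ d < m, ∀ x ∈ Finsupp.supported k k {p : G × B | p.1 ∈ S ∧ deg p.2 = d},
    ext k db x = 0 → aug k eb x = 0 →
      ∃ y ∈ Finsupp.supported k k {p : G × B | p.1 ∈ S ∧ deg p.2 = d + 1}, ext k db y = x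

/-- the operator `h_a`: `h_a (g b) = g (h_{g⁻¹ a g} b)` -/
noncomputable def hop {G B : Type} [Group G] (ha : G → B → (G × B →₀ ℂ)) (a : G) :
    (G × B →₀ ℂ) →ₗ[ℂ] (G × B →₀ ℂ) :=
  Finsupp.linearCombination ℂ (fun p : G × B => tr ℂ p.1 (ha (p.1⁻¹ * a * p.1) p.2))

/-- `ha` is a homotopy between `1` and the translation by `a`, for all `a ∈ G'`, in degrees
`< m`, in the monoid `S` -/
structure IsHa {G : Type} [Group G] (S : Set G) (m : ℕ) (B : Type) (deg : B → ℕ)
    (db : B → (G × B →₀ ℂ)) (ha : G → B → (G × B →₀ ℂ)) : Prop where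
  sup : ∀ a ∈ commutator G, ∀ b, ha a b ∈ Finsupp.supported ℂ ℂ
    {p : G × B | p.1 ∈ S ∧ deg p.2 = deg b + 1}
  eq : ∀ a ∈ commutator G, ∀ b, deg b < m →
    ext ℂ db (ha a b) + hop ha a (db b) = single (1, b) 1 - single (a, b) 1

/-! ### Integral characters -/

/-- characters with integral values -/
abbrev Chr (G : Type) [Group G] := G →* Multiplicative ℤ

/-- the value of an integral character -/
def vl {G : Type} [Group G] (χ : Chr G) (g : G) : ℤ := Multiplicative.toAdd (χ g)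

/-- the induced character of the abelianization -/
def bch {G : Type} [Group G] (χ : Chr G) : Chr (Abelianization G) := Abelianization.lift χ

/-- the based complex over a group `Q` with the region `χ ≥ 0` and the heights `χs j` -/
noncomputable def qbc {Q : Type} [Group Q] {ι : Type} (χ : Chr Q) (χs : ι → Chr Q) (B : Type)
    (deg : B → ℕ) (db : B → (Q × B →₀ ℂ)) : BC ι where
  X := Q × B
  deg := fun p => deg p.2
  ht := fun j p => vl (χs j) p.1
  R := {p | 0 ≤ vl χ p.1}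
  D := ext ℂ db

/-- the quotient complex over the abelianization -/
noncomputable def bar {G : Type} [Group G] {ι : Type} (χ : Chr G) (χs : ι → Chr G) (B : Type)
    (deg : B → ℕ) (db : B → (G × B →₀ ℂ)) : BC ι :=
  qbc (bch χ) (fun j => bch (χs j)) B deg (fun b => mp ℂ Abelianization.of (db b))

/-- `G'` is not finitely generated over `G_χ` -/
def NFG {G : Type} [Group G] (χ : Chr G) : Prop := ∀ V : Finset G, (∀ v ∈ V, v ∈ commutator G) →
  ∃ a ∈ commutator G, a ∉ Subgroup.closure {w : G | ∃ g v : G, 0 ≤ vl χ g ∧ v ∈ V ∧ w = g * v * g⁻¹}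

/-- the function `ψ` for one character -/
def PsiData {G : Type} [Group G] (χ : Chr G) : Prop := ∃ ψ : G → ℂ,
  (∀ a ∈ commutator G, ψ a ≠ 0) ∧
  (∀ a ∈ commutator G, ∀ b ∈ commutator G, ψ (a * b) = ψ a * ψ b) ∧
  (∀ a ∈ commutator G, ∃ K : ℤ, ∀ g, K ≤ vl χ g → ψ (g * a * g⁻¹) = 1) ∧
  ∃ T : Finset G, (∀ t ∈ T, t ∈ commutator G) ∧
    ∀ g, vl χ g = -1 → ∃ t ∈ T, ψ (g * t * g⁻¹) ≠ 1

/-- the functions `φ` and `σ` for a set of characters, with arbitrarily low level `s` -/
def SigData {G : Type} [Group G] {ι : Type} (χs : ι → Chr G) (J : Finset ι) : Prop :=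
  ∃ K : G → ℤ, (∀ y, 0 ≤ K y) ∧ ∀ K' : ℤ, 0 ≤ K' → ∃ T0 : Finset G,
    (∀ t ∈ T0, t ∈ commutator G) ∧ ∀ s1 : ℤ, ∃ s ≤ s1, ∃ φ σ : G → ℂ,
      (∀ a ∈ commutator G, φ a ≠ 0) ∧
      (∀ a ∈ commutator G, ∀ b ∈ commutator G, φ (a * b) = φ a * φ b) ∧
      (∀ x, σ x ≠ 0) ∧
      (∀ a ∈ commutator G, ∀ x, σ (a * x) = φ a * σ x) ∧
      (∀ x y, (∀ j ∈ J, s + K y ≤ vl (χs j) x) → σ (x * y) = σ x) ∧
      (∃ a ∈ commutator G, φ a ≠ 1) ∧
      (∀ g, (∀ j ∈ J, s - K' ≤ vl (χs j) g) → (∃ j ∈ J, vl (χs j) g ≤ s + K') →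
        ∃ t ∈ T0, φ (g * t * g⁻¹) ≠ 1)

/-- the map to the chains over the abelianization which is twisted by `σ` -/
noncomputable def pis {G B : Type} [Group G] (σ : G → ℂ) :
    (G × B →₀ ℂ) →ₗ[ℂ] (Abelianization G × B →₀ ℂ) :=
  Finsupp.linearCombination ℂ (fun p : G × B => single (Abelianization.of p.1, p.2) (σ p.1))

end Pool.Agent.Work.MP_e9e200_al.LC
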